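import Pool.Agent.H83.V.FV
import Pool.Agent.H14.LF.WBL

/-!
Theorem V: row VBL (labels on one window). The sums over blocks are those of helper14 for the row
WBL of Theorem U.
-/

set_option autoImplicit false

open Finset

namespace Pool.Agent.H6.V

open Pool.Agent.H14.LF (lg' sum_blocks)
open Pool.Agent.H83.V

open Classical in
/-- labels on blocks (general form) -/
theorem blocks (g : ℕ → ℝ) (hg0 : ∀ n, 0 ≤ g n) (hg1 : ∀ n, g n ≤ 1) (b : ℕ → ℕ → Bool)
    (H x y : ℕ) (hH : 0 < H) (hx : 0 < x) (hxy : x ≤ y) : ∃ τ : ℕ → ℕ → Bool,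
    ∑ n ∈ (Icc x y).filter (fun n => τ n ≠ τ (n + 1)), (1 : ℝ) / n ≤
      1 + Real.log ((y : ℝ) / x) / H ∧
    ∀ (W : ℕ → ℝ) (C : ℝ), 0 ≤ C → (∀ n, 0 ≤ W n) →
      (∀ n0, (∀ h ∈ range H, τ (n0 + h) = b n0) →
        (H : ℝ) * (g n0 / 2) ≤ ∑ h ∈ range H, W (n0 + h) + C) →
      (∑ n ∈ Icc x y, g n / n) / 2 ≤ ∑ n ∈ Icc x y, W n / n + H +
        C * (1 + Real.log ((y : ℝ) / x) / H) := by
  have hH' : (0 : ℝ) < H := by exact_mod_cast hH
  have hH1 : (1 : ℝ) ≤ H := by exact_mod_cast hH
  have hf0 : ∀ n : ℕ, 0 ≤ g n / n := fun n => div_nonneg (hg0 n) (Nat.cast_nonneg n)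
  -- the best offset
  obtain ⟨q, hq, hqs⟩ : ∃ q ∈ range H, (∑ n ∈ Icc x y, g n / n) / H ≤
      ∑ n ∈ (Icc x y).filter (fun n => (n - x) % H = q), g n / n := by
    refine Finset.exists_le_of_sum_le (Finset.nonempty_range_iff.2 hH.ne') ?_
    rw [Finset.sum_const, Finset.card_range, nsmul_eq_mul, mul_div_cancel₀ _ hH'.ne']
    rw [Finset.sum_fiberwise_of_maps_to (fun n _ => Finset.mem_range.2 (Nat.mod_lt _ hH))]
  have hqH := Finset.mem_range.1 hq
  obtain ⟨s, hs⟩ : ∃ s, s = x + q := ⟨_, rfl⟩
  have hsx : x ≤ s := by omega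
  have hs0 : 0 < s := by omega
  obtain ⟨J, hJ⟩ : ∃ J, J = (y + H - s) / H := ⟨_, rfl⟩
  have hJy : ∀ j < J, s + j * H ≤ y := by
    intro j hj
    have h1 : (j + 1) * H ≤ y + H - s := (Nat.le_div_iff_mul_le hH).1 (hJ ▸ hj)
    rw [Nat.succ_mul] at h1
    omega
  have hfib : ∑ n ∈ (Icc x y).filter (fun n => (n - x) % H = q), g n / n ≤
      ∑ j ∈ range J, g (s + j * H) / ((s + j * H : ℕ) : ℝ) := by
    have hinj : Set.InjOn (fun j => s + j * H) (range J : Set ℕ) := by
      intro i _ j _ h
      have h1 : i * H = j * H := by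
        have : s + i * H = s + j * H := h
        omega
      exact Nat.eq_of_mul_eq_mul_right hH h1
    rw [← Finset.sum_image (f := fun n : ℕ => g n / (n : ℝ)) hinj]
    refine Finset.sum_le_sum_of_subset_of_nonneg ?_ fun n _ _ => hf0 n
    intro n hn
    rw [Finset.mem_filter, Finset.mem_Icc] at hn
    obtain ⟨⟨hn1, hn2⟩, hn3⟩ := hn
    rw [Finset.mem_image]
    have h2 := Nat.mod_add_div (n - x) H
    refine ⟨(n - x) / H, ?_, ?_⟩
    · rw [Finset.mem_range, hJ]
      refine (Nat.le_div_iff_mul_le hH).2 ?_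
      rw [Nat.succ_mul, Nat.mul_comm]
      omega
    · show s + (n - x) / H * H = n
      rw [Nat.mul_comm]
      omega
  obtain ⟨τ, hτ⟩ : ∃ τ : ℕ → ℕ → Bool, τ = fun n => b (s + (n - s) / H * H) := ⟨_, rfl⟩
  refine ⟨τ, ?_, ?_⟩
  · -- changes
    have hsub : (Icc x y).filter (fun n => τ n ≠ τ (n + 1)) ⊆
        (range ((y + 1 - s) / H)).image (fun j => s + H - 1 + j * H) := by
      intro n hn
      rw [Finset.mem_filter, Finset.mem_Icc] at hn
      obtain ⟨⟨hn1, hn2⟩, hn3⟩ := hn
      have hne : (n - s) / H ≠ (n + 1 - s) / H := fun h => hn3 (by rw [hτ]; simp only [h])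
      have hns : s ≤ n := by
        by_contra h
        apply hne
        have e1 : n - s = 0 := by omega
        have e2 : n + 1 - s = 0 := by omega
        rw [e1, e2]
      obtain ⟨m, rfl⟩ := Nat.exists_eq_add_of_le hns
      have e1 : s + m - s = m := by omega
      have e2 : s + m + 1 - s = m + 1 := by omega
      rw [e1, e2, Nat.succ_div] at hne
      have hdvd : H ∣ m + 1 := by
        by_contra h
        apply hne
        rw [if_neg h, Nat.add_zero]
      obtain ⟨c, hc⟩ := hdvd
      have hc0 : 0 < c := by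
        rcases Nat.eq_zero_or_pos c with rfl | h
        · simp at hc
        · exact h
      rw [Finset.mem_image]
      refine ⟨c - 1, ?_, ?_⟩
      · rw [Finset.mem_range]
        have : c ≤ (y + 1 - s) / H := by
          refine (Nat.le_div_iff_mul_le hH).2 ?_
          rw [Nat.mul_comm, ← hc]
          omega
        omega
      · show s + H - 1 + (c - 1) * H = s + m
        obtain ⟨d, rfl⟩ := Nat.exists_eq_add_of_lt hc0
        have : (0 + d + 1 - 1) * H = d * H := by congr 1; omega
        rw [this]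
        have h3 : H * (0 + d + 1) = d * H + H := by ring
        omega
    refine (Finset.sum_le_sum_of_subset_of_nonneg hsub fun n _ _ => by positivity).trans ?_
    have hinj : Set.InjOn (fun j => s + H - 1 + j * H) (range ((y + 1 - s) / H) : Set ℕ) := by
      intro i _ j _ h
      have h1 : i * H = j * H := by
        have : s + H - 1 + i * H = s + H - 1 + j * H := h
        omega
      exact Nat.eq_of_mul_eq_mul_right hH h1
    rw [Finset.sum_image hinj]
    refine lg' (s + H - 1) H x y hx hxy (by omega) hH _ fun j hj => ?_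
    have h1 : (j + 1) * H ≤ y + 1 - s := (Nat.le_div_iff_mul_le hH).1 hj
    rw [Nat.succ_mul] at h1
    omega
  · intro W C hC hW hWb
    have hW0 : ∀ n : ℕ, 0 ≤ W n / n := fun n => div_nonneg (hW n) (Nat.cast_nonneg n)
    have hlog := lg' s H x y hx hxy hsx hH J hJy
    -- one block
    have hblock : ∀ j : ℕ, (H : ℝ) / 2 * (g (s + j * H) / ((s + j * H : ℕ) + H : ℝ)) ≤
        ∑ h ∈ range H, W (s + j * H + h) /
          ((s + j * H + h : ℕ) : ℝ) + C * (1 / ((s + j * H : ℕ) : ℝ)) := by
      intro j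
      have hn0 : (0 : ℝ) < ((s + j * H : ℕ) : ℝ) := by
        have : 0 < s + j * H := by omega
        exact_mod_cast this
      have hτj : ∀ h ∈ range H, τ (s + j * H + h) = b (s + j * H) := by
        intro h hh
        rw [hτ]
        show b (s + (s + j * H + h - s) / H * H) = _
        have e1 : s + j * H + h - s = h + H * j := by rw [Nat.mul_comm H j]; omega
        rw [e1, Nat.add_mul_div_left _ _ hH, Nat.div_eq_of_lt (Finset.mem_range.1 hh),
          Nat.zero_add]
      have hpos : (0 : ℝ) < ((s + j * H : ℕ) : ℝ) + H := by positivity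
      have h4 : (∑ h ∈ range H, W (s + j * H + h)) /
          (((s + j * H : ℕ) : ℝ) + H) ≤
          ∑ h ∈ range H, W (s + j * H + h) /
          ((s + j * H + h : ℕ) : ℝ) := by
        rw [Finset.sum_div]
        refine Finset.sum_le_sum fun h hh => ?_
        refine div_le_div_of_nonneg_left (hW _) ?_ ?_
        · have : 0 < s + j * H + h := by omega
          exact_mod_cast this
        · have : (h : ℝ) ≤ H := by exact_mod_cast (Finset.mem_range.1 hh).le
          push_cast
          linarith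
      have h5 : C / (((s + j * H : ℕ) : ℝ) + H) ≤
          C * (1 / ((s + j * H : ℕ) : ℝ)) := by
        rw [mul_one_div]
        refine div_le_div_of_nonneg_left hC hn0 ?_
        linarith
      have h6 : (H : ℝ) / 2 * (g (s + j * H) / (((s + j * H : ℕ) : ℝ) + H)) =
          (H * (g (s + j * H) / 2)) / (((s + j * H : ℕ) : ℝ) + H) := by ring
      rw [h6]
      have h7 := hWb (s + j * H) hτj
      refine (div_le_div_of_nonneg_right h7 hpos.le).trans ?_
      rw [add_div]
      exact add_le_add h4 h5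
    -- the last block
    have hlast : ∀ j : ℕ, (H : ℝ) / 2 * (g (s + j * H) / ((s + j * H : ℕ) + H : ℝ)) ≤
        1 / 2 := by
      intro j
      have hpos : (0 : ℝ) < ((s + j * H : ℕ) : ℝ) + H := by positivity
      have h1 : (H : ℝ) / 2 * (g (s + j * H) / (((s + j * H : ℕ) : ℝ) + H)) ≤
          (H : ℝ) / 2 * (1 / H) := by
        refine mul_le_mul_of_nonneg_left ?_ (by positivity)
        refine div_le_div₀ zero_le_one (hg1 _) hH' ?_
        have : (0 : ℝ) ≤ ((s + j * H : ℕ) : ℝ) := Nat.cast_nonneg _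
        linarith
      refine h1.trans (le_of_eq ?_)
      field_simp
    -- telescoping
    have htel : ∀ N : ℕ, ∑ j ∈ range N, (H : ℝ) / 2 *
        (g (s + j * H) / ((s + j * H : ℕ) : ℝ)) ≤
        ∑ j ∈ range N, (H : ℝ) / 2 * (g (s + j * H) / ((s + j * H : ℕ) + H : ℝ)) +
          (H : ℝ) / 2 * (1 / (s : ℝ) - 1 / ((s + N * H : ℕ) : ℝ)) := by
      intro N
      induction N with
      | zero => simp
      | succ N ih =>
        rw [Finset.sum_range_succ, Finset.sum_range_succ]
        have hn0 : (0 : ℝ) < ((s + N * H : ℕ) : ℝ) := by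
          have : 0 < s + N * H := by omega
          exact_mod_cast this
        have e1 : ((s + (N + 1) * H : ℕ) : ℝ) = ((s + N * H : ℕ) : ℝ) + H := by push_cast; ring
        have h1 : g (s + N * H) / ((s + N * H : ℕ) : ℝ) -
            g (s + N * H) / (((s + N * H : ℕ) : ℝ) + H) ≤
            1 / ((s + N * H : ℕ) : ℝ) - 1 / (((s + N * H : ℕ) : ℝ) + H) := by
          have h2 : 0 ≤ 1 / ((s + N * H : ℕ) : ℝ) - 1 / (((s + N * H : ℕ) : ℝ) + H) := by
            rw [sub_nonneg]
            exact div_le_div_of_nonneg_left zero_le_one hn0 (by linarith)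
          have h3 : g (s + N * H) / ((s + N * H : ℕ) : ℝ) -
            g (s + N * H) / (((s + N * H : ℕ) : ℝ) + H) = g (s + N * H) *
            (1 / ((s + N * H : ℕ) : ℝ) - 1 / (((s + N * H : ℕ) : ℝ) + H)) := by ring
          rw [h3]
          exact mul_le_of_le_one_left h2 (hg1 _)
        have h4 := mul_le_mul_of_nonneg_left h1 (show (0 : ℝ) ≤ H / 2 by positivity)
        rw [e1]
        linarith
    have hmain : (∑ n ∈ Icc x y, g n / n) / 2 ≤
        ∑ j ∈ range J, (H : ℝ) / 2 * (g (s + j * H) / ((s + j * H : ℕ) : ℝ)) := by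
      rw [← Finset.mul_sum]
      have h1 := hqs.trans hfib
      rw [div_le_iff₀ hH'] at h1
      linarith
    have htelJ := htel J
    have hs1 : (1 : ℝ) / s ≤ 1 := by
      rw [div_le_one (by exact_mod_cast hs0)]
      exact_mod_cast hs0
    have hH2 : (H : ℝ) / 2 * (1 / (s : ℝ) - 1 / ((s + J * H : ℕ) : ℝ)) ≤ H / 2 := by
      have h1 : (0 : ℝ) ≤ 1 / ((s + J * H : ℕ) : ℝ) := by positivity
      nlinarith
    -- the sum of the blocks
    have hsum : ∑ j ∈ range J, (H : ℝ) / 2 *
        (g (s + j * H) / ((s + j * H : ℕ) + H : ℝ)) ≤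
        ∑ n ∈ Icc x y, W n / n +
          C * (1 + Real.log ((y : ℝ) / x) / H) + 1 / 2 := by
      rcases J with _ | J
      · simp only [Finset.range_zero, Finset.sum_empty]
        have h1 : 0 ≤ ∑ n ∈ Icc x y, W n / n :=
          Finset.sum_nonneg fun n _ => hW0 n
        have h2 : 0 ≤ 1 + Real.log ((y : ℝ) / x) / H := by
          refine le_trans ?_ hlog
          simp
        positivity
      · rw [Finset.sum_range_succ]
        refine add_le_add ?_ (hlast J)
        refine (Finset.sum_le_sum fun j _ => hblock j).trans ?_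
        rw [Finset.sum_add_distrib, ← Finset.mul_sum]
        refine add_le_add ?_ ?_
        · rw [sum_blocks (fun n => W n / (n : ℝ)) s H J]
          have hinj : Set.InjOn (fun i => s + i) (range (J * H) : Set ℕ) :=
            fun i _ j _ h => Nat.add_left_cancel h
          rw [← Finset.sum_image (f := fun n : ℕ => W n / (n : ℝ)) hinj]
          refine Finset.sum_le_sum_of_subset_of_nonneg ?_ fun n _ _ => hW0 n
          intro n hn
          rw [Finset.mem_image] at hn
          obtain ⟨i, hi, rfl⟩ := hn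
          have h1 := Finset.mem_range.1 hi
          have h2 := hJy J (Nat.lt_succ_self J)
          rw [Finset.mem_Icc]
          omega
        · refine mul_le_mul_of_nonneg_left ?_ hC
          refine le_trans ?_ hlog
          refine Finset.sum_le_sum_of_subset_of_nonneg ?_ fun j _ _ => by positivity
          exact Finset.range_subset_range.2 (Nat.le_succ J)
    linarith

/-- windows in a block: most of the short means are small -/
theorem count_win (e : ℕ → ℝ) (he0 : ∀ n, 0 ≤ e n) (η : ℝ) (hη : 0 ≤ η) (H K n0 : ℕ)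
    (hK : 0 < K) (W : ℕ → ℝ) (hW : ∀ n, (∑ k ∈ range K, e (n + k)) / K ≤ 2 * η → W n = 1)
    (hW0 : ∀ n, 0 ≤ W n) (hs : ∑ h ∈ range H, e (n0 + h) ≤ η * H) :
    (H : ℝ) / 2 ≤ ∑ h ∈ range H, W (n0 + h) + K := by
  have hK' : (0 : ℝ) < K := by exact_mod_cast hK
  have hH0 : (0 : ℝ) ≤ H := Nat.cast_nonneg _
  rcases Nat.lt_or_ge K H with hKH | hKH
  swap
  · have h1 : (H : ℝ) ≤ K := by exact_mod_cast hKH
    have h2 : 0 ≤ ∑ h ∈ range H, W (n0 + h) := Finset.sum_nonneg fun h _ => hW0 _
    linarith
  obtain ⟨M, hM⟩ : ∃ M, M + K = H + 1 := ⟨H + 1 - K, by omega⟩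
  -- the sum of the means
  have h1 : ∑ h ∈ range M, (∑ k ∈ range K, e (n0 + h + k)) / K ≤ η * H := by
    rw [← Finset.sum_div, Finset.sum_comm, div_le_iff₀ hK']
    have h2 : ∀ k ∈ range K, ∑ h ∈ range M, e (n0 + h + k) ≤ η * H := by
      intro k hk
      refine le_trans ?_ hs
      have hinj : Set.InjOn (fun h => h + k) (range M : Set ℕ) :=
        fun i _ j _ h => Nat.add_right_cancel h
      have h3 : ∑ h ∈ range M, e (n0 + h + k) =
          ∑ i ∈ (range M).image (fun h => h + k), e (n0 + i) := by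
        rw [Finset.sum_image hinj]
        exact Finset.sum_congr rfl fun h _ => by rw [Nat.add_assoc]
      rw [h3]
      refine Finset.sum_le_sum_of_subset_of_nonneg ?_ fun i _ _ => he0 _
      intro i hi
      rw [Finset.mem_image] at hi
      obtain ⟨h, hh, rfl⟩ := hi
      rw [Finset.mem_range] at hh hk ⊢
      omega
    refine (Finset.sum_le_sum h2).trans (le_of_eq ?_)
    rw [Finset.sum_const, card_range, nsmul_eq_mul]
    ring
  have ha0 : ∀ n, 0 ≤ (∑ k ∈ range K, e (n + k)) / K := fun n =>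
    div_nonneg (Finset.sum_nonneg fun k _ => he0 _) hK'.le
  -- the number of bad windows
  have h4 : ∑ h ∈ range M, (1 - W (n0 + h)) ≤ (H : ℝ) / 2 := by
    rcases hη.eq_or_lt with h0 | h0
    · have h5 : ∑ h ∈ range M, (∑ k ∈ range K, e (n0 + h + k)) / K = 0 := by
        refine le_antisymm ?_ (Finset.sum_nonneg fun h _ => ha0 _)
        rw [← h0, zero_mul] at h1
        exact h1
      have h6 : ∀ h ∈ range M, 1 - W (n0 + h) = 0 := by
        intro h hh
        have h7 := (Finset.sum_eq_zero_iff_of_nonneg fun h _ => ha0 (n0 + h)).1 h5 h hh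
        rw [hW (n0 + h) (by rw [h7, ← h0]; norm_num), sub_self]
      rw [Finset.sum_congr rfl h6, Finset.sum_const_zero]
      positivity
    · have h5 : ∀ h ∈ range M, 1 - W (n0 + h) ≤
          (∑ k ∈ range K, e (n0 + h + k)) / K / (2 * η) := by
        intro h _
        by_cases hc : (∑ k ∈ range K, e (n0 + h + k)) / K ≤ 2 * η
        · rw [hW _ hc, sub_self]
          exact div_nonneg (ha0 _) (by linarith)
        · rw [le_div_iff₀ (by linarith)]
          push Not at hc
          have := hW0 (n0 + h)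
          nlinarith
      refine (Finset.sum_le_sum h5).trans ?_
      rw [← Finset.sum_div, div_le_iff₀ (by linarith)]
      linarith
  have h8 : ∑ h ∈ range M, W (n0 + h) ≤ ∑ h ∈ range H, W (n0 + h) :=
    Finset.sum_le_sum_of_subset_of_nonneg (Finset.range_subset_range.2 (by omega))
      fun h _ _ => hW0 _
  rw [Finset.sum_sub_distrib, Finset.sum_const, card_range, nsmul_eq_mul, mul_one] at h4
  have h9 : (M : ℝ) + K = H + 1 := by exact_mod_cast hM
  linarith

theorem pat_mem (z : Bool) (m n : ℕ) : pat z m n ∈ Sg m := by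
  intro i
  unfold pat vl
  split_ifs <;> simp

/-- VBL: labels on one window. -/
theorem pf_VBL (hG : T_GDL) : T_VBL := by
  classical
  intro z m I η H x y hη hH hx hxy
  obtain ⟨_, _, hG3, _⟩ := hG m I
  -- the label of a good block
  have hlab : ∀ n0 : ℕ, ∃ b : ℕ → Bool, Gn z m I η H n0 →
      (((range H).filter fun h => pat z m (n0 + h) ∉ Gd I b).card : ℝ) ≤ η * H := by
    intro n0
    by_cases hgd : Gn z m I η H n0
    · obtain ⟨G, hG1, hG2⟩ := hgd
      obtain ⟨b, _, hb⟩ := hG3 G hG1
      refine ⟨b, fun _ => le_trans ?_ hG2⟩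
      have h1 : ((range H).filter fun h => pat z m (n0 + h) ∉ Gd I b) ⊆
          ((range H).filter fun h => pat z m (n0 + h) ∉ G) := by
        intro h hh
        rw [Finset.mem_filter] at hh ⊢
        exact ⟨hh.1, fun hc => hh.2 (hb _ (pat_mem z m _) hc)⟩
      exact_mod_cast Finset.card_le_card h1
    · exact ⟨fun _ => false, fun h => absurd h hgd⟩
  choose b hb using hlab
  obtain ⟨τ, hτ1, hτ2⟩ := blocks (fun n => if Gn z m I η H n then 1 else 0)
    (fun n => by split_ifs <;> norm_num) (fun n => by split_ifs <;> norm_num) b H x y hH hx hxy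
  refine ⟨τ, hτ1, fun K hK => ?_⟩
  have hW0 : ∀ n, (0 : ℝ) ≤ if aN z I τ K n ≤ 2 * η then 1 else 0 := fun n => by
    split_ifs <;> norm_num
  have h1 := hτ2 (fun n => if aN z I τ K n ≤ 2 * η then 1 else 0) K (Nat.cast_nonneg K) hW0 (by
    intro n0 hn0
    by_cases hgd : Gn z m I η H n0
    · rw [if_pos hgd, mul_one_div]
      have hs : ∑ h ∈ range H, eN z I τ (n0 + h) ≤ η * H := by
        refine le_trans (le_of_eq ?_) (hb n0 hgd)
        rw [Finset.card_filter]
        push_cast
        refine Finset.sum_congr rfl fun h hh => ?_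
        unfold eN
        rw [hn0 h hh]
        by_cases hc : pat z m (n0 + h) ∈ Gd I (b n0)
        · rw [if_pos hc, if_neg (not_not.2 hc)]
        · rw [if_neg hc, if_pos hc]
      refine count_win (eN z I τ) (fun n => ?_) η hη H K n0 hK _ (fun n hn => if_pos hn) hW0 hs
      unfold eN
      split_ifs <;> norm_num
    · rw [if_neg hgd, zero_div, mul_zero]
      exact add_nonneg (Finset.sum_nonneg fun h _ => hW0 _) (Nat.cast_nonneg K))
  have h2 : ∀ (Q : ℕ → Prop) [DecidablePred Q], ∑ n ∈ Icc x y, (if Q n then (1 : ℝ) else 0) / n =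
      ∑ n ∈ (Icc x y).filter (fun n => Q n), (1 : ℝ) / n := by
    intro Q _
    rw [Finset.sum_filter]
    refine Finset.sum_congr rfl fun n _ => ?_
    split_ifs <;> simp
  have h3 := h2 (fun n => Gn z m I η H n)
  have h4 := h2 (fun n => aN z I τ K n ≤ 2 * η)
  have hH0 : (0 : ℝ) ≤ H := Nat.cast_nonneg _
  rw [h3, h4] at h1
  linarith

end Pool.Agent.H6.V
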